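import Mathlib

namespace Pool.Agent.Results.MP_3abf0f_al.Harmonious

def op (m : ℤ) (x y : ℤ × ℤ) : ℤ × ℤ :=
  ((x.1 + y.1) % 2, x.2 + if x.1 = 0 then y.2 else if y.2 % 2 = 0 then -y.2 else m - y.2)

def el {G : Type} [Group G] (a b : G) (x : ℤ × ℤ) : G :=
  if x.1 = 0 then a ^ x.2 else a ^ x.2 * b

section grp
variable {G : Type} [Group G] (a b : G) (m : ℕ)

lemma pw (ha : a ^ (2 * m) = 1) (e e' : ℤ) (h : (2 * m : ℤ) ∣ e - e') : a ^ e = a ^ e' := by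
  obtain ⟨t, ht⟩ := h
  have h1 : e = e' + (2 * m : ℕ) * t := by push_cast; linarith
  rw [h1, zpow_add, zpow_mul, zpow_natCast, ha, one_zpow, mul_one]

lemma ba (hm : 1 ≤ m) (ha : a ^ (2 * m) = 1) (hc : b * a * b⁻¹ = a ^ (m - 1)) (e : ℤ) :
    b * a ^ e = a ^ (if e % 2 = 0 then -e else m - e) * b := by
  have h1 : b * a ^ e * b⁻¹ = a ^ (((m : ℤ) - 1) * e) := by
    rw [← conj_zpow, hc, ← zpow_natCast, ← zpow_mul]
    congr 2
    push_cast [hm]
    ring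
  have h2 : a ^ (((m : ℤ) - 1) * e) = a ^ (if e % 2 = 0 then -e else m - e) := by
    apply pw a m ha
    split_ifs with h
    · refine ⟨e / 2, ?_⟩
      have : e = 2 * (e / 2) := by omega
      linear_combination (m : ℤ) * this
    · refine ⟨e / 2, ?_⟩
      have : e = 2 * (e / 2) + 1 := by omega
      linear_combination (m : ℤ) * this
  rw [← h2, ← h1]; group

lemma el_mul (hm : 1 ≤ m) (ha : a ^ (2 * m) = 1) (hb : b ^ 2 = 1) (hc : b * a * b⁻¹ = a ^ (m - 1))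
    (x y : ℤ × ℤ) (hx : x.1 = 0 ∨ x.1 = 1) (hy : y.1 = 0 ∨ y.1 = 1) :
    el a b x * el a b y = el a b (op m x y) := by
  have hbb : b * b = 1 := by rw [← sq, hb]
  have k := ba a b m hm ha hc y.2
  rcases hx with hx | hx <;> rcases hy with hy | hy
  · simp [el, op, hx, hy, zpow_add]
  · simp [el, op, hx, hy, zpow_add, mul_assoc]
  · simp only [el, op, hx, hy, zpow_add]
    norm_num
    rw [mul_assoc, k, mul_assoc]
    simp [mul_assoc]
  · simp only [el, op, hx, hy, zpow_add]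
    norm_num
    rw [mul_assoc, ← mul_assoc b, k, mul_assoc, hbb, mul_one]
    simp

lemma el_inj [Finite G] (hm : 1 ≤ m) (ha : a ^ (2 * m) = 1) (hb : b ^ 2 = 1)
    (hc : b * a * b⁻¹ = a ^ (m - 1)) (hg : Subgroup.closure {a, b} = ⊤)
    (hcard : Nat.card G = 4 * m) (x y : ℤ × ℤ) (hx : x.1 = 0 ∨ x.1 = 1) (hy : y.1 = 0 ∨ y.1 = 1)
    (h : el a b x = el a b y) : x.1 = y.1 ∧ (2 * m : ℤ) ∣ x.2 - y.2 := by
  have hbb : b * b = 1 := by rw [← sq, hb]
  have hop : ∀ u v : ℤ × ℤ, (op m u v).1 = 0 ∨ (op m u v).1 = 1 := by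
    intro u v; simp only [op]; omega
  have hs : ∀ g : G, ∃ x : ℤ × ℤ, (x.1 = 0 ∨ x.1 = 1) ∧ el a b x = g := by
    intro g
    have hg' : g ∈ Subgroup.closure {a, b} := by rw [hg]; trivial
    induction hg' using Subgroup.closure_induction with
    | mem x hx =>
      rcases hx with rfl | rfl
      · exact ⟨(0, 1), by simp, by simp [el]⟩
      · exact ⟨(1, 0), by simp, by simp [el]⟩
    | one => exact ⟨(0, 0), by simp, by simp [el]⟩
    | mul x y _ _ ihx ihy =>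
      obtain ⟨u, hu, rfl⟩ := ihx
      obtain ⟨v, hv, rfl⟩ := ihy
      exact ⟨op m u v, hop u v, (el_mul a b m hm ha hb hc u v hu hv).symm⟩
    | inv x _ ih =>
      obtain ⟨u, hu, rfl⟩ := ih
      rcases hu with hu | hu
      · exact ⟨(0, -u.2), by simp, by simp [el, hu]⟩
      · refine ⟨op m (1, 0) (0, -u.2), hop _ _, ?_⟩
        rw [← el_mul a b m hm ha hb hc _ _ (by simp) (by simp)]
        have : b⁻¹ = b := inv_eq_of_mul_eq_one_right hbb
        simp [el, hu, this]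
  let φ : Fin 2 × Fin (2 * m) → G := fun p => el a b (((p.1 : ℕ) : ℤ), ((p.2 : ℕ) : ℤ))
  have hpos : (0 : ℤ) < 2 * m := by omega
  have red : ∀ u : ℤ × ℤ, (u.1 = 0 ∨ u.1 = 1) → ∃ p : Fin 2 × Fin (2 * m),
      ((p.1 : ℕ) : ℤ) = u.1 ∧ ((p.2 : ℕ) : ℤ) = u.2 % (2 * m) ∧ φ p = el a b u := by
    intro u hu
    have h0 := Int.emod_nonneg u.2 hpos.ne'
    have h1 := Int.emod_lt_of_pos u.2 hpos
    have e1 : ((u.1.toNat : ℕ) : ℤ) = u.1 := by omega
    have e2 : (((u.2 % (2 * m)).toNat : ℕ) : ℤ) = u.2 % (2 * m) := by omega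
    refine ⟨(⟨u.1.toNat, by omega⟩, ⟨(u.2 % (2 * m)).toNat, by omega⟩), e1, e2, ?_⟩
    have e3 : a ^ (u.2 % (2 * m)) = a ^ u.2 := by
      apply pw a m ha
      exact ⟨-(u.2 / (2 * m)), by rw [Int.emod_def]; ring⟩
    simp only [φ, el, e1, e2, e3]
  have hsurj : Function.Surjective φ := by
    intro g
    obtain ⟨u, hu, rfl⟩ := hs g
    obtain ⟨p, -, -, hp⟩ := red u hu
    exact ⟨p, hp⟩
  have hbij : Function.Bijective φ :=
    (Nat.bijective_iff_surjective_and_card φ).2 ⟨hsurj, by simp [hcard]; ring⟩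
  obtain ⟨p, p1, p2, p3⟩ := red x hx
  obtain ⟨q, q1, q2, q3⟩ := red y hy
  have hpq : p = q := hbij.1 (by rw [p3, q3, h])
  subst hpq
  refine ⟨by rw [← p1, q1], ?_⟩
  have : x.2 % (2 * m) = y.2 % (2 * m) := by rw [← p2, q2]
  exact Int.dvd_of_emod_eq_zero (Int.emod_eq_emod_iff_emod_sub_eq_zero.1 this)

lemma build [Finite G] (hm : 1 ≤ m) (ha : a ^ (2 * m) = 1) (hb : b ^ 2 = 1)
    (hc : b * a * b⁻¹ = a ^ (m - 1)) (hg : Subgroup.closure {a, b} = ⊤)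
    (hcard : Nat.card G = 4 * m) (M : ℕ) (hM : M = 4 * m) (F : ℕ → ℤ × ℤ)
    (h01 : ∀ i, (F i).1 = 0 ∨ (F i).1 = 1)
    (hF : ∀ i < M, ∀ j < M, (F i).1 = (F j).1 → (2 * m : ℤ) ∣ (F i).2 - (F j).2 → i = j)
    (hP : ∀ i < M, ∀ j < M, (op m (F i) (F ((i + 1) % M))).1 = (op m (F j) (F ((j + 1) % M))).1 →
      (2 * m : ℤ) ∣ (op m (F i) (F ((i + 1) % M))).2 - (op m (F j) (F ((j + 1) % M))).2 → i = j) :
    ∃ g : ZMod M → G, Function.Bijective g ∧ Function.Injective fun i => g i * g (i + 1) := by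
  haveI : Fact (1 < M) := ⟨by omega⟩
  haveI : NeZero M := ⟨by omega⟩
  have hop : ∀ u v : ℤ × ℤ, (op m u v).1 = 0 ∨ (op m u v).1 = 1 := by
    intro u v; simp only [op]; omega
  refine ⟨fun i => el a b (F i.val), ?_, ?_⟩
  · refine (Nat.bijective_iff_injective_and_card _).2 ⟨?_, by simp [hcard, hM]⟩
    intro i j h
    obtain ⟨h1, h2⟩ := el_inj a b m hm ha hb hc hg hcard _ _ (h01 _) (h01 _) h
    exact ZMod.val_injective M (hF _ (ZMod.val_lt i) _ (ZMod.val_lt j) h1 h2)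
  · intro i j h
    simp only [ZMod.val_add, ZMod.val_one] at h
    rw [el_mul a b m hm ha hb hc _ _ (h01 _) (h01 _),
      el_mul a b m hm ha hb hc _ _ (h01 _) (h01 _)] at h
    obtain ⟨h1, h2⟩ := el_inj a b m hm ha hb hc hg hcard _ _ (hop _ _) (hop _ _) h
    exact ZMod.val_injective M (hP _ (ZMod.val_lt i) _ (ZMod.val_lt j) h1 h2)

end grp

def A (k j : ℤ) : ℕ → ℤ × ℤ
  | 0 => (1, 0 * k + (0) + (2) * j)
  | 1 => (0, 0 * k + (-2) + (-2) * j)
  | 2 => (0, 8 * k + (-2) + (-2) * j)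
  | 3 => (0, 0 * k + (-3) + (-2) * j)
  | 4 => (1, 0 * k + (-2) + (-2) * j)
  | 5 => (1, 4 * k + (1) + (2) * j)
  | 6 => (1, 4 * k + (-1) + (-2) * j)
  | _ => (0, 0 * k + (3) + (2) * j)

def B (k : ℤ) : ℕ → ℤ × ℤ
  | 0 => (0, 0 * k + (0))
  | 1 => (0, 8 * k + (0))
  | 2 => (1, 8 * k + (-2))
  | 3 => (0, 0 * k + (1))
  | 4 => (1, 12 * k + (-1))
  | 5 => (1, 12 * k + (1))
  | 6 => (1, 8 * k + (0))
  | _ => (0, 0 * k + (-1))

def PA (k j : ℤ) : ℕ → ℤ × ℤ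
  | 0 => (1, 0 * k + (2) + (4) * j)
  | 1 => (0, 8 * k + (-4) + (-4) * j)
  | 2 => (0, 8 * k + (-5) + (-4) * j)
  | 3 => (1, 0 * k + (-5) + (-4) * j)
  | 4 => (0, 4 * k + (-3) + (-4) * j)
  | 5 => (0, 8 * k + (2) + (4) * j)
  | 6 => (1, 12 * k + (-4) + (-4) * j)
  | _ => (1, 0 * k + (5) + (4) * j)

def PB (k : ℤ) : ℕ → ℤ × ℤ
  | 0 => (0, 8 * k + (0))
  | 1 => (1, 16 * k + (-2))
  | 2 => (1, 16 * k + (-3))
  | 3 => (1, 12 * k + (0))
  | 4 => (0, 8 * k + (-2))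
  | 5 => (0, 4 * k + (1))
  | 6 => (1, 16 * k + (1))
  | _ => (1, 0 * k + (-1))

def PC (k j : ℤ) : ℤ × ℤ := (0, 0 * k + (3) + (2) * j)

def L4 : List (ℤ × ℤ) := [(0, 0), (0, 1), (0, 2), (0, 3), (0, 4), (1, 0), (0, 5), (1, 1), (0, 6), (1, 2), (1, 6), (1, 4), (0, 7), (1, 3), (1, 7), (1, 5)]

def F2 (k j r : ℕ) : ℤ × ℤ := if j + 1 < 4 * k then A k j r else B k r

def Q2 (k j r : ℕ) : ℤ × ℤ :=
  if j + 1 < 4 * k then (if r = 7 ∧ j + 2 = 4 * k then PC k j else PA k j r) else PB k r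

lemma dv (N d : ℤ) (hN : 0 < N) (h : N ∣ d) :
    d ≤ -3 * N ∨ d = -2 * N ∨ d = -N ∨ d = 0 ∨ d = N ∨ d = 2 * N ∨ 3 * N ≤ d := by
  obtain ⟨q, rfl⟩ := h
  have : q ≤ -3 ∨ q = -2 ∨ q = -1 ∨ q = 0 ∨ q = 1 ∨ q = 2 ∨ 3 ≤ q := by omega
  rcases this with h | h | h | h | h | h | h
  · left; nlinarith
  all_goals first | (subst h; omega) | (right; right; right; right; right; right; nlinarith)

lemma F01 (k j r : ℕ) : (F2 k j r).1 = 0 ∨ (F2 k j r).1 = 1 := by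
  unfold F2
  split_ifs
  · unfold A; split <;> simp
  · unfold B; split <;> simp

lemma Finj (k : ℕ) (hk : 1 ≤ k) (j r j' r' : ℕ) (hj : j < 4 * k) (hj' : j' < 4 * k) (hr : r < 8)
    (hr' : r' < 8) (h1 : (F2 k j r).1 = (F2 k j' r').1)
    (h2 : (16 * k : ℤ) ∣ (F2 k j r).2 - (F2 k j' r').2) : j = j' ∧ r = r' := by
  have h3 := dv _ _ (by omega) h2
  clear h2
  unfold F2 at h1 h3
  split_ifs at h1 h3 <;> interval_cases r <;> interval_cases r' <;>
    simp only [A, B] at h1 h3 <;> omega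

lemma Qinj (k : ℕ) (hk : 1 ≤ k) (j r j' r' : ℕ) (hj : j < 4 * k) (hj' : j' < 4 * k) (hr : r < 8)
    (hr' : r' < 8) (h1 : (Q2 k j r).1 = (Q2 k j' r').1)
    (h2 : (16 * k : ℤ) ∣ (Q2 k j r).2 - (Q2 k j' r').2) : j = j' ∧ r = r' := by
  have h3 := dv _ _ (by omega) h2
  clear h2
  unfold Q2 at h1 h3
  split_ifs at h1 h3 <;> interval_cases r <;> interval_cases r' <;>
    simp only [PA, PB, PC] at h1 h3 <;> omega

lemma link (k : ℕ) (hk : 1 ≤ k) (i : ℕ) (hi : i < 32 * k) :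
    op (8 * k) (F2 k (i / 8) (i % 8)) (F2 k ((i + 1) % (32 * k) / 8) ((i + 1) % (32 * k) % 8))
      = Q2 k (i / 8) (i % 8) := by
  obtain ⟨j, r, hr, rfl⟩ : ∃ j r, r < 8 ∧ i = 8 * j + r := ⟨i / 8, i % 8, by omega, by omega⟩
  have e1 : (8 * j + r) / 8 = j := by omega
  have e2 : (8 * j + r) % 8 = r := by omega
  rw [e1, e2]
  by_cases h7 : r < 7
  · have e0 : (8 * j + r + 1) % (32 * k) = 8 * j + r + 1 := Nat.mod_eq_of_lt (by omega)
    have e3 : (8 * j + r + 1) / 8 = j := by omega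
    have e4 : (8 * j + r + 1) % 8 = r + 1 := by omega
    rw [e0, e3, e4]
    have h8 : ¬ (r = 7 ∧ j + 2 = 4 * k) := by omega
    unfold F2 Q2
    rw [if_neg h8]
    split_ifs <;> interval_cases r <;> simp only [A, B, PA, PB, op, Prod.mk.injEq] <;>
      split_ifs <;> omega
  · obtain rfl : r = 7 := by omega
    by_cases hl : j + 1 < 4 * k
    · have e0 : (8 * j + 7 + 1) % (32 * k) = 8 * j + 7 + 1 := Nat.mod_eq_of_lt (by omega)
      have e3 : (8 * j + 7 + 1) / 8 = j + 1 := by omega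
      have e4 : (8 * j + 7 + 1) % 8 = 0 := by omega
      rw [e0, e3, e4]
      unfold F2 Q2
      rw [if_pos hl, if_pos hl]
      split_ifs <;> simp only [A, B, PA, PC, op, Prod.mk.injEq] <;> split_ifs <;> omega
    · have e0 : (8 * j + 7 + 1) % (32 * k) = 0 := by
        have : 8 * j + 7 + 1 = 32 * k := by omega
        rw [this, Nat.mod_self]
      rw [e0]
      unfold F2 Q2
      rw [if_neg hl, if_neg hl, if_pos (by omega)]
      simp only [A, B, PB, op, Prod.mk.injEq, Nat.zero_div, Nat.zero_mod]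
      split_ifs <;> omega

theorem result (n : ℕ) (hn : 4 ≤ n) (G : Type) [Group G] [Finite G] (a b : G)
    (ha : a ^ (2 ^ (n - 1)) = 1) (hb : b ^ 2 = 1) (hc : b * a * b⁻¹ = a ^ (2 ^ (n - 2) - 1))
    (hg : Subgroup.closure {a, b} = ⊤) (hcard : Nat.card G = 2 ^ n) :
    ∃ g : ZMod (2 ^ n) → G, Function.Bijective g ∧
      Function.Injective fun i => g i * g (i + 1) := by
  rcases Nat.eq_or_lt_of_le hn with rfl | hn
  · refine build a b 4 (by norm_num) ha hb hc hg hcard _ (by norm_num)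
      (fun i => L4.getD (i % 16) (0, 0)) ?_ ?_ ?_
    · intro i
      have : ∀ r < 16, (L4.getD r (0, 0)).1 = 0 ∨ (L4.getD r (0, 0)).1 = 1 := by decide +kernel
      exact this _ (Nat.mod_lt _ (by norm_num))
    · decide +kernel
    · decide +kernel
  · obtain ⟨s, rfl⟩ : ∃ s, n = s + 5 := ⟨n - 5, by omega⟩
    have hk : 1 ≤ 2 ^ s := Nat.one_le_two_pow
    have e1 : 2 ^ (s + 5 - 1) = 2 * (8 * 2 ^ s) := by
      rw [show s + 5 - 1 = s + 4 by omega]; ring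
    have e2 : 2 ^ (s + 5 - 2) = 8 * 2 ^ s := by
      rw [show s + 5 - 2 = s + 3 by omega]; ring
    have e3 : 2 ^ (s + 5) = 32 * 2 ^ s := by ring
    rw [e1] at ha
    rw [e2] at hc
    rw [e3] at hcard ⊢
    generalize 2 ^ s = k at *
    have c1 : (2 * ((8 * k : ℕ) : ℤ)) = 16 * k := by push_cast; ring
    have c2 : ((8 * k : ℕ) : ℤ) = 8 * k := by push_cast; ring
    refine build a b (8 * k) (by omega) ha hb hc hg (by omega) _ (by omega)
      (fun i => F2 k (i / 8) (i % 8)) (fun i => F01 _ _ _) ?_ ?_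
    · intro i hi j hj h1 h2
      rw [c1] at h2
      have := Finj k hk _ _ _ _ (by omega) (by omega) (by omega) (by omega) h1 h2
      omega
    · intro i hi j hj h1 h2
      rw [c1] at h2
      rw [c2] at h1 h2
      simp only [link k hk i hi, link k hk j hj] at h1 h2
      have := Qinj k hk _ _ _ _ (by omega) (by omega) (by omega) (by omega) h1 h2
      omega

end Pool.Agent.Results.MP_3abf0f_al.Harmonious
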